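import Pool.Agent.Helper16.OD.RES

/-!
# Packet PAD (project OD, MP_064283_lc): padding of conditions
-/

namespace Pool.Agent.Helper17.OD.PkPAD

open Set Pool.Agent.Helper17.OD Pool.Agent.Helper17.OD.PkRES

/-- The part of a coded set belonging to one coordinate. -/
def Cs (i l₀ : O) (N₀ : O → Set T) : Set T :=
  {z : T | ∃ x < l₀, z = .pr (.ord i) (.pr (.nat 0) (.ord x)) ∨
    ∃ s ∈ N₀ x, z = .pr (.ord i) (.pr (.nat 1) (.pr (.ord x) s))}

theorem fst_of {i x : O} {z : T} (h : z = .pr (.ord i) (.pr (.nat 0) (.ord x)) ∨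
    ∃ s : T, z = .pr (.ord i) (.pr (.nat 1) (.pr (.ord x) s))) : z.fst = .ord i := by
  rcases h with h | ⟨s, h⟩ <;> rw [h] <;> rfl

/-- General padding at the coordinate `i`. -/
theorem pad_main (hBLD : G_BLD) (hPUN : G_PUN) (hPBD : G_PBD) (F : FD) {i : O} (hi : i < F.κ)
    {p : T} (hp : p ∈ F.P F.κ) (l₀ : O) (N₀ : O → Set T) (hl1 : ln p i ≤ l₀) (hl2 : l₀ < F.η i)
    (hN : ∀ x < ln p i, N₀ x = nm p i x) (hR : ∀ x < l₀, RegO (F.P i) (F.Le i) (N₀ x))
    (hT : Thin F.M F.w (F.P i) N₀ l₀)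
    (hB : SD F.γ F.M F.M (fun e _ => e ∈ Cs i l₀ N₀)) (hBD : Cs i l₀ N₀ ⊆ D (Iio F.κ)) :
    ∃ q ∈ F.P F.κ, F.Le F.κ q p ∧ ln q i = l₀ ∧ (∀ x < l₀, nm q i x = N₀ x) ∧
      (∀ j < F.κ, j ≠ i → ln q j = ln p j ∧ ∀ x, nm q j x = nm p j x) := by
  classical
  obtain ⟨b1, b2, b3, b4, b5, b6, b7, b8⟩ := hPBD F
  have hc := ((hPUN F).2 F.κ p).1 hp
  have hpD : p ∈ D (Iio F.κ) := b2 F.κ hp
  let l : O → O := fun j => if j = i then l₀ else ln p j
  let N : O → O → Set T := fun j x => if j = i then N₀ x else nm p j x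
  have l1 : l i = l₀ := if_pos rfl
  have l2 : ∀ j, j ≠ i → l j = ln p j := fun j hj => if_neg hj
  have n1 : ∀ x, N i x = N₀ x := fun x => if_pos rfl
  have n2 : ∀ j x, j ≠ i → N j x = nm p j x := fun j x hj => if_neg hj
  -- the set
  have hset : {z : T | ∃ j < F.κ, j < F.κ ∧ ∃ x < l j,
      z = .pr (.ord j) (.pr (.nat 0) (.ord x)) ∨
      ∃ s ∈ N j x, z = .pr (.ord j) (.pr (.nat 1) (.pr (.ord x) s))} =
      {z | (z ∈ dec p ∧ ¬ z.fst = .ord i) ∨ z ∈ Cs i l₀ N₀} := by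
    have h8 := b8 F.κ p hp
    ext z
    constructor
    · rintro ⟨j, hj, -, x, hx, h⟩
      by_cases hji : j = i
      · subst hji
        rw [l1] at hx
        rw [n1] at h
        exact Or.inr ⟨x, hx, h⟩
      · rw [l2 j hji] at hx
        rw [n2 j x hji] at h
        left
        refine ⟨?_, ?_⟩
        · rw [h8]
          exact ⟨j, hj, hj, x, hx, h⟩
        · rw [fst_of (h.imp id fun ⟨s, _, hs⟩ => ⟨s, hs⟩)]
          intro h'
          injection h' with h''
          exact hji h''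
    · rintro (⟨hz, hzi⟩ | ⟨x, hx, h⟩)
      · rw [h8] at hz
        obtain ⟨j, hj, -, x, hx, h⟩ := hz
        have hji : j ≠ i := by
          rintro rfl
          exact hzi (fst_of (h.imp id fun ⟨s, _, hs⟩ => ⟨s, hs⟩))
        refine ⟨j, hj, hj, x, ?_, ?_⟩
        · rw [l2 j hji]
          exact hx
        · rw [n2 j x hji]
          exact h
      · refine ⟨i, hi, hi, x, ?_, ?_⟩
        · rw [l1]
          exact hx
        · rw [n1]
          exact h
  have hM : {z | (z ∈ dec p ∧ ¬ z.fst = .ord i) ∨ z ∈ Cs i l₀ N₀} ∈ F.M := by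
    have : SOM F.γ F.M F.M := F.g.m1
    refine SOM.of_SD (k := F.γ) (S := F.M) (S' := F.M) F.g.kg
      (fun z hz => hz.elim (fun h => dec_sub hpD h.1) (fun h => hBD h)) ?_
    have hiγ : i < F.γ := hi.trans F.g.kg
    exact ((SD.mem ST.id (SV.par (inM hpD))).and (SD.eq ST.id.fst (ST.ordc hiγ)).not).or hB
  obtain ⟨-, d, hdκ, hd⟩ := b4 F.κ p hp
  have hsi : Order.succ i < F.κ := F.g.klim.succ_lt hi
  have hPi : ∀ j < F.κ, l j < F.η j ∧ (∀ x < l j, RegO (F.P j) (F.Le j) (N j x)) ∧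
      Thin F.M F.w (F.P j) (N j) (l j) := by
    intro j hj
    by_cases hji : j = i
    · subst hji
      have hN' : N j = N₀ := by
        funext x
        exact n1 x
      rw [l1, hN']
      exact ⟨hl2, hR, hT⟩
    · have hN' : N j = nm p j := by
        funext x
        exact n2 j x hji
      rw [l2 j hji, hN']
      exact ⟨hc.len j hj hj, hc.ro j hj hj, hc.thin j hj hj⟩
  obtain ⟨q, hq, hqe⟩ := hBLD F F.κ le_rfl l N (by rw [hset]; exact hM)
    ⟨max d (Order.succ i), max_lt hdκ hsi, fun j _ hdj => by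
      have hji : j ≠ i := by
        rintro rfl
        exact absurd ((le_max_right _ _).trans hdj) (not_le.2 (Order.lt_succ j))
      rw [l2 j hji]
      exact (hd j ((le_max_left _ _).trans hdj)).1⟩
    (fun j _ hj => (hPi j hj).1)
    (fun j _ hj => (hPi j hj).2.1)
    (fun j _ hj => (hPi j hj).2.2)
  have hqi : ln q i = l₀ := (hqe i hi hi).1.trans l1
  have hqn : ∀ x < l₀, nm q i x = N₀ x := fun x hx =>
    ((hqe i hi hi).2 x (by rw [l1]; exact hx)).trans (n1 x)
  have hqj : ∀ j < F.κ, j ≠ i → ln q j = ln p j ∧ ∀ x, nm q j x = nm p j x := by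
    intro j hj hji
    obtain ⟨e1, e2⟩ := hqe j hj hj
    rw [l2 j hji] at e1
    refine ⟨e1, fun x => ?_⟩
    by_cases hx : x < ln p j
    · exact (e2 x (by rw [l2 j hji]; exact hx)).trans (n2 j x hji)
    · rw [b6 F.κ q hq j x (by rw [e1]; exact not_lt.1 hx), b6 F.κ p hp j x (not_lt.1 hx)]
  refine ⟨q, hq, ?_, hqi, hqn, hqj⟩
  rw [(hPUN F).1]
  intro j hj
  by_cases hji : j = i
  · subst hji
    refine ⟨by rw [hqi]; exact hl1, fun x hx r _ _ => ?_⟩
    rw [hqn x (lt_of_lt_of_le hx hl1), hN x hx]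
  · obtain ⟨e1, e2⟩ := hqj j hj hji
    exact ⟨by rw [e1], fun x _ r _ _ => by rw [e2 x]⟩

theorem thm (hBLD : G_BLD) (hPUN : G_PUN) (hPBD : G_PBD) (hPIM : G_PIM) (hPRO : G_PRO) :
    G_PAD := by
  classical
  intro F i hi p hp a ha hpa
  obtain ⟨b1, b2, b3, b4, b5, b6, b7, b8⟩ := hPBD F
  obtain ⟨r1, -⟩ := hPRO F
  have hc := ((hPUN F).2 F.κ p).1 hp
  have hpD : p ∈ D (Iio F.κ) := b2 F.κ hp
  have inst : SOM F.γ F.M F.M := F.g.m1
  have hiγ : i < F.γ := hi.trans F.g.kg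
  have hηκ : F.η i < F.κ := F.e.lt i hi
  have hsa : Order.succ a < F.η i := (F.e.lim i hi).succ_lt ha
  have haγ : a < F.γ := (ha.trans hηκ).trans F.g.kg
  have hsaγ : Order.succ a < F.γ := (hsa.trans hηκ).trans F.g.kg
  have hPiM : F.P i ∈ F.M := (hPIM F).2.2 i hi.le
  have hthin := hc.thin i hi hi
  have hro := hc.ro i hi hi
  have hemp : RegO (F.P i) (F.Le i) ∅ := by
    refine ⟨empty_subset _, fun r hr => absurd hr (notMem_empty r), fun r hr h => ?_⟩
    obtain ⟨u, -, -, hu⟩ := h r hr (r1 i r)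
    exact hu
  -- membership in `dec p` at the coordinate `i`
  have hdec : ∀ z : T, (z ∈ dec p ∧ z.fst = .ord i) ↔ z ∈ Cs i (ln p i) (nm p i) := by
    intro z
    constructor
    · rintro ⟨hz, hzi⟩
      rw [b8 F.κ p hp] at hz
      obtain ⟨j, hj, -, x, hx, h⟩ := hz
      have hji : j = i := by
        rw [fst_of (h.imp id fun ⟨s, _, hs⟩ => ⟨s, hs⟩)] at hzi
        injection hzi
      subst hji
      exact ⟨x, hx, h⟩
    · rintro ⟨x, hx, h⟩
      refine ⟨?_, fst_of (h.imp id fun ⟨s, _, hs⟩ => ⟨s, hs⟩)⟩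
      rw [b8 F.κ p hp]
      exact ⟨i, hi, hi, x, hx, h⟩
  -- the lengths
  have hlen : ∀ (l₀ : O) (z : T), (∃ x < l₀, z = .pr (.ord i) (.pr (.nat 0) (.ord x))) ↔
      (z = .pr (.ord i) (.pr (.nat 0) z.snd.snd) ∧ z.snd.snd.IsOrd ∧
        z.snd.snd.llt (.ord l₀)) := by
    intro l₀ z
    constructor
    · rintro ⟨x, hx, rfl⟩
      exact ⟨rfl, trivial, hx⟩
    · rintro ⟨h1, h2⟩
      obtain ⟨x, hx, h3⟩ := isOrd_lt.2 h2
      exact ⟨x, hx, by rw [← h3]; exact h1⟩
  have hlenSD : ∀ l₀ < F.γ, SD F.γ F.M F.M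
      (fun e _ => e = .pr (.ord i) (.pr (.nat 0) e.snd.snd) ∧ e.snd.snd.IsOrd ∧
        e.snd.snd.llt (.ord l₀)) := by
    intro l₀ hl₀
    exact (SD.eq ST.id ((ST.ordc hiγ).pr ((ST.nat 0).pr ST.id.snd.snd))).and
      ((SD.isOrd ST.id.snd.snd).and (SD.llt ST.id.snd.snd (ST.ordc hl₀)))
  have hdecSD : SD F.γ F.M F.M (fun e _ => e ∈ dec p ∧ e.fst = .ord i) :=
    (SD.mem ST.id (SV.par (inM hpD))).and (SD.eq ST.id.fst (ST.ordc hiγ))
  refine ⟨?_, ?_⟩
  · -- padding with empty names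
    let N₀ : O → Set T := fun x => if x < ln p i then nm p i x else ∅
    have m1 : ∀ x, x < ln p i → N₀ x = nm p i x := fun x hx => if_pos hx
    have m2 : ∀ x, ¬ x < ln p i → N₀ x = ∅ := fun x hx => if_neg hx
    have hCs : ∀ z : T, z ∈ Cs i a N₀ ↔ ((z ∈ dec p ∧ z.fst = .ord i) ∨
        (z = .pr (.ord i) (.pr (.nat 0) z.snd.snd) ∧ z.snd.snd.IsOrd ∧
          z.snd.snd.llt (.ord a))) := by
      intro z
      rw [hdec, ← hlen]
      constructor
      · rintro ⟨x, hx, h | ⟨s, hs, h⟩⟩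
        · exact Or.inr ⟨x, hx, h⟩
        · by_cases hx' : x < ln p i
          · rw [m1 x hx'] at hs
            exact Or.inl ⟨x, hx', Or.inr ⟨s, hs, h⟩⟩
          · rw [m2 x hx'] at hs
            exact absurd hs (notMem_empty s)
      · rintro (⟨x, hx, h⟩ | ⟨x, hx, h⟩)
        · refine ⟨x, lt_of_lt_of_le hx hpa, ?_⟩
          rw [m1 x hx]
          exact h
        · exact ⟨x, hx, Or.inl h⟩
    obtain ⟨q, hq, h1, h2, h3, h4⟩ := pad_main hBLD hPUN hPBD F hi hp a N₀ hpa ha m1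
      (fun x hx => by
        by_cases hx' : x < ln p i
        · rw [m1 x hx']
          exact hro x hx'
        · rw [m2 x hx']
          exact hemp)
      (by
        rintro ⟨f, r, hf, hfM, hr, h⟩
        refine hthin ⟨f, r, hf, hfM, hr, fun x hx => ?_⟩
        obtain ⟨h1, h2⟩ := h x hx
        by_cases hx' : f x < ln p i
        · rw [m1 _ hx'] at h2
          exact ⟨hx', h2⟩
        · rw [m2 _ hx'] at h2
          exact absurd h2 (notMem_empty r))
      ((hdecSD.or (hlenSD a haγ)).congr fun e _ σ _ => (hCs e).symm)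
      (by
        intro z hz
        rcases (hCs z).1 hz with h | h
        · exact dec_sub hpD h.1
        · obtain ⟨x, hx, rfl⟩ := (hlen a z).2 h
          exact pr_mem.2 ⟨ord_mem.2 hi, pr_mem.2 ⟨nat_mem _ _,
            ord_mem.2 ((hx.trans ha).trans hηκ)⟩⟩)
    refine ⟨q, hq, h1, h2, fun x hx => (h3 x (lt_of_lt_of_le hx hpa)).trans (m1 x hx), ?_, h4⟩
    intro x hx
    by_cases hxa : x < a
    · exact (h3 x hxa).trans (m2 x (not_lt.2 hx))
    · exact b6 F.κ q hq i x (by rw [h2]; exact not_lt.1 hxa)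
  · -- padding with one full name
    let N₀ : O → Set T := fun x => if x < ln p i then nm p i x else if x = a then F.P i else ∅
    have m1 : ∀ x, x < ln p i → N₀ x = nm p i x := fun x hx => if_pos hx
    have m2 : ∀ x, ¬ x < ln p i → x ≠ a → N₀ x = ∅ := fun x hx hxa => by
      show (if x < ln p i then nm p i x else if x = a then F.P i else ∅) = ∅
      rw [if_neg hx, if_neg hxa]
    have m3 : N₀ a = F.P i := by
      show (if a < ln p i then nm p i a else if a = a then F.P i else ∅) = F.P i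
      rw [if_neg (not_lt.2 hpa), if_pos rfl]
    have hCs : ∀ z : T, z ∈ Cs i (Order.succ a) N₀ ↔ ((z ∈ dec p ∧ z.fst = .ord i) ∨
        (z = .pr (.ord i) (.pr (.nat 0) z.snd.snd) ∧ z.snd.snd.IsOrd ∧
          z.snd.snd.llt (.ord (Order.succ a)))) ∨
        (z = .pr (.ord i) (.pr (.nat 1) (.pr (.ord a) z.snd.snd.snd)) ∧
          z.snd.snd.snd ∈ F.P i) := by
      intro z
      rw [hdec, ← hlen]
      constructor
      · rintro ⟨x, hx, h | ⟨s, hs, h⟩⟩
        · exact Or.inl (Or.inr ⟨x, hx, h⟩)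
        · by_cases hx' : x < ln p i
          · rw [m1 x hx'] at hs
            exact Or.inl (Or.inl ⟨x, hx', Or.inr ⟨s, hs, h⟩⟩)
          · by_cases hxa : x = a
            · subst hxa
              rw [m3] at hs
              right
              rw [h]
              exact ⟨rfl, hs⟩
            · rw [m2 x hx' hxa] at hs
              exact absurd hs (notMem_empty s)
      · rintro ((⟨x, hx, h⟩ | ⟨x, hx, h⟩) | ⟨h1, h2⟩)
        · refine ⟨x, (lt_of_lt_of_le hx hpa).trans (Order.lt_succ a), ?_⟩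
          rw [m1 x hx]
          exact h
        · exact ⟨x, hx, Or.inl h⟩
        · exact ⟨a, Order.lt_succ a, Or.inr ⟨_, by rw [m3]; exact h2, h1⟩⟩
    obtain ⟨q, hq, h1, h2, h3, h4⟩ := pad_main hBLD hPUN hPBD F hi hp (Order.succ a) N₀
      (hpa.trans (Order.le_succ a)) hsa m1
      (fun x hx => by
        by_cases hx' : x < ln p i
        · rw [m1 x hx']
          exact hro x hx'
        · by_cases hxa : x = a
          · rw [hxa, m3]
            exact ⟨subset_rfl, fun _ _ s hs _ => hs, fun r hr _ => hr⟩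
          · rw [m2 x hx' hxa]
            exact hemp)
      (by
        rintro ⟨f, r, hf, hfM, hr, h⟩
        refine hthin ⟨f, r, hf, hfM, hr, fun x hx => ?_⟩
        obtain ⟨g1, g2⟩ := h x hx
        have hsx : Order.succ x < F.w := F.g.wlim.succ_lt hx
        have hlt : f x < f (Order.succ x) := hf hx hsx (Order.lt_succ x)
        have hfa : f x < a := lt_of_lt_of_le hlt (Order.lt_succ_iff.1 (h _ hsx).1)
        by_cases hx' : f x < ln p i
        · rw [m1 _ hx'] at g2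
          exact ⟨hx', g2⟩
        · rw [m2 _ hx' hfa.ne] at g2
          exact absurd g2 (notMem_empty r))
      (((hdecSD.or (hlenSD _ hsaγ)).or ((SD.eq ST.id ((ST.ordc hiγ).pr ((ST.nat 1).pr
        ((ST.ordc haγ).pr ST.id.snd.snd.snd)))).and (SD.mem ST.id.snd.snd.snd
          (SV.par hPiM)))).congr fun e _ σ _ => (hCs e).symm)
      (by
        intro z hz
        rcases (hCs z).1 hz with (h | h) | ⟨h1, h2⟩
        · exact dec_sub hpD h.1
        · obtain ⟨x, hx, rfl⟩ := (hlen _ z).2 h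
          exact pr_mem.2 ⟨ord_mem.2 hi, pr_mem.2 ⟨nat_mem _ _,
            ord_mem.2 ((hx.trans hsa).trans hηκ)⟩⟩
        · rw [h1]
          exact pr_mem.2 ⟨ord_mem.2 hi, pr_mem.2 ⟨nat_mem _ _, pr_mem.2
            ⟨ord_mem.2 (ha.trans hηκ), b2 i h2⟩⟩⟩)
    refine ⟨q, hq, h1, h2, fun x hx => (h3 x ((lt_of_lt_of_le hx hpa).trans
      (Order.lt_succ a))).trans (m1 x hx), fun x hxa hx => (h3 x (hxa.trans
      (Order.lt_succ a))).trans (m2 x (not_lt.2 hx) hxa.ne), (h3 a (Order.lt_succ a)).trans m3,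
      h4⟩

end Pool.Agent.Helper17.OD.PkPAD
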